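import Mathlib
import Pool.Agent.Helper336.CF

set_option autoImplicit false

/-!
# The monoid `⟨a, b, c | (a bⁿ c)² = 1 (n ≥ 0)⟩`: words, states and normal forms
-/

namespace Pool.Agent.U642.CFU

/-- The three letters. -/
inductive L3 : Type
  | a | b | c
  deriving DecidableEq

open L3

instance : Fintype L3 := ⟨{a, b, c}, by intro x; cases x <;> simp⟩

/-- The word `a bⁿ c`. -/
def pw (n : ℕ) : List L3 := a :: (List.replicate n b ++ [c])

/-- The defining relations `(a bⁿ c)² = 1`. -/
inductive Rel : FreeMonoid L3 → FreeMonoid L3 → Prop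
  | mk (n : ℕ) : Rel (FreeMonoid.ofList (pw n ++ pw n)) 1

/-- The monoid `⟨a, b, c | (a bⁿ c)² = 1 (n ≥ 0)⟩`. -/
abbrev Mo : Type := (conGen Rel).Quotient

/-- The generators of the monoid. -/
def gen (x : L3) : Mo := (conGen Rel).mk' (FreeMonoid.of x)

/-- The value of a word. -/
def val (w : List L3) : Mo := (w.map gen).prod

lemma val_nil : val [] = 1 := rfl

lemma val_append (u v : List L3) : val (u ++ v) = val u * val v := by
  simp [val]

lemma val_cons (x : L3) (v : List L3) : val (x :: v) = gen x * val v := by
  simp [val]

lemma val_eq (w : List L3) : val w = (conGen Rel).mk' (FreeMonoid.ofList w) := by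
  induction w with
  | nil => simp [val]
  | cons x w ih =>
    rw [val_cons, ih, FreeMonoid.ofList_cons, map_mul]
    rfl

lemma val_surj (x : Mo) : ∃ w, val w = x := by
  obtain ⟨w, rfl⟩ := Con.mk'_surjective x
  exact ⟨FreeMonoid.toList w, by rw [val_eq]; rfl⟩

lemma val_rel (n : ℕ) : val (pw n ++ pw n) = 1 := by
  rw [val_eq, ← map_one (conGen Rel).mk']
  exact (Con.eq _).2 (ConGen.Rel.of _ _ (Rel.mk n))

/-! ### States: reversed words (the head is the last letter) -/

/-- `pat n t` is the (reversed) word `t a bⁿ c a bⁿ`. -/
def pat (n : ℕ) (t : List L3) : List L3 :=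
  List.replicate n b ++ a :: c :: (List.replicate n b ++ a :: t)

lemma rep_inj {n m : ℕ} {x : L3} (s t : List L3) {y z : L3} (hy : y ≠ x) (hz : z ≠ x)
    (h : List.replicate n x ++ y :: s = List.replicate m x ++ z :: t) :
    n = m ∧ y = z ∧ s = t := by
  induction n generalizing m with
  | zero =>
    cases m with
    | zero => simpa using h
    | succ m =>
      simp only [List.replicate_zero, List.nil_append, List.replicate_succ, List.cons_append,
        List.cons.injEq] at h
      exact absurd h.1 hy
  | succ n ih =>
    cases m with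
    | zero =>
      simp only [List.replicate_zero, List.nil_append, List.replicate_succ, List.cons_append,
        List.cons.injEq] at h
      exact absurd h.1.symm hz
    | succ m =>
      simp only [List.replicate_succ, List.cons_append, List.cons.injEq, true_and] at h
      obtain ⟨h1, h2⟩ := ih h
      exact ⟨by omega, h2⟩

lemma pat_inj {n m : ℕ} {s t : List L3} (h : pat n s = pat m t) : n = m ∧ s = t := by
  obtain ⟨h1, -, h2⟩ := rep_inj _ _ (by decide) (by decide) h
  subst h1
  simp only [List.cons.injEq, true_and] at h2
  obtain ⟨-, -, h3⟩ := rep_inj _ _ (by decide) (by decide) h2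
  exact ⟨rfl, h3⟩

open Classical in
/-- Append the letter `x` to the (reversed) word `s`, and cancel if a relator appears. -/
noncomputable def step (s : List L3) (x : L3) : List L3 :=
  if h : x = c ∧ ∃ q : ℕ × List L3, s = pat q.1 q.2 then (Classical.choose h.2).2 else x :: s

lemma step_pat (n : ℕ) (t : List L3) : step (pat n t) c = t := by
  have h : c = c ∧ ∃ q : ℕ × List L3, pat n t = pat q.1 q.2 := ⟨rfl, (n, t), rfl⟩
  unfold step
  rw [dif_pos h]
  exact (pat_inj (Classical.choose_spec h.2)).2.symm

lemma step_of_ne {s : List L3} {x : L3} (h : x ≠ c) : step s x = x :: s := by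
  unfold step
  rw [dif_neg]
  exact fun h' => h h'.1

lemma step_of_not {s : List L3} (h : ∀ n t, s ≠ pat n t) (x : L3) : step s x = x :: s := by
  unfold step
  rw [dif_neg]
  rintro ⟨-, ⟨n, t⟩, h'⟩
  exact h n t h'

/-- The two possible results of a step. -/
lemma step_cases (s : List L3) (x : L3) :
    (step s x = x :: s ∧ ¬ (x = c ∧ ∃ n t, s = pat n t)) ∨
      (∃ n t, x = c ∧ s = pat n t ∧ step s x = t) := by
  by_cases h : x = c ∧ ∃ n t, s = pat n t
  · obtain ⟨rfl, n, t, rfl⟩ := h
    exact Or.inr ⟨n, t, rfl, rfl, step_pat n t⟩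
  · left
    refine ⟨?_, h⟩
    by_cases hx : x = c
    · exact step_of_not (fun n t h' => h ⟨hx, n, t, h'⟩) x
    · exact step_of_ne hx

/-- Read a word. -/
noncomputable def run (w : List L3) (s : List L3) : List L3 := w.foldl step s

lemma run_nil (s : List L3) : run [] s = s := rfl

lemma run_cons (x : L3) (w s : List L3) : run (x :: w) s = run w (step s x) := rfl

lemma run_append (u v s : List L3) : run (u ++ v) s = run v (run u s) := by
  simp [run]

/-- A state is valid if it contains no relator. -/
def Valid (s : List L3) : Prop := ∀ p n t, s ≠ p ++ c :: pat n t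

lemma valid_nil : Valid [] := by
  intro p n t h
  simp at h

lemma Valid.tail {p s : List L3} (h : Valid (p ++ s)) : Valid s := by
  intro q n t h'
  apply h (p ++ q) n t
  rw [h', List.append_assoc]

lemma pat_tail (n : ℕ) (t : List L3) : ∃ p, pat n t = p ++ t :=
  ⟨List.replicate n b ++ a :: c :: (List.replicate n b ++ [a]), by simp [pat]⟩

lemma valid_step {s : List L3} (h : Valid s) (x : L3) : Valid (step s x) := by
  rcases step_cases s x with ⟨h1, h2⟩ | ⟨n, t, rfl, rfl, h1⟩
  · rw [h1]
    intro p n t h3
    cases p with
    | nil =>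
      simp only [List.nil_append, List.cons.injEq] at h3
      exact h2 ⟨h3.1, n, t, h3.2⟩
    | cons y p =>
      simp only [List.cons_append, List.cons.injEq] at h3
      exact h p n t h3.2
  · rw [h1]
    obtain ⟨p, hp⟩ := pat_tail n t
    rw [hp] at h
    exact h.tail

lemma valid_run (w : List L3) {s : List L3} (h : Valid s) : Valid (run w s) := by
  induction w generalizing s with
  | nil => exact h
  | cons x w ih => rw [run_cons]; exact ih (valid_step h x)

lemma run_rep (n : ℕ) (s : List L3) : run (List.replicate n b) s = List.replicate n b ++ s := by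
  induction n generalizing s with
  | zero => rfl
  | succ n ih =>
    rw [List.replicate_succ, run_cons, step_of_ne (by decide), ih, ← List.replicate_succ,
      List.replicate_succ', List.append_assoc]
    rfl

/-- Reading `a bⁿ c`. -/
lemma run_pw (n : ℕ) (s : List L3) :
    run (pw n) s = step (List.replicate n b ++ a :: s) c := by
  rw [pw, run_cons, step_of_ne (by decide), run_append, run_rep]
  rfl

lemma run_pw_cases (n : ℕ) (s : List L3) :
    (∃ t, s = c :: (List.replicate n b ++ a :: t) ∧ run (pw n) s = t) ∨
      ((∀ t, s ≠ c :: (List.replicate n b ++ a :: t)) ∧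
        run (pw n) s = c :: (List.replicate n b ++ a :: s)) := by
  rw [run_pw]
  by_cases h : ∃ t, s = c :: (List.replicate n b ++ a :: t)
  · obtain ⟨t, rfl⟩ := h
    exact Or.inl ⟨t, rfl, step_pat n t⟩
  · right
    push Not at h
    refine ⟨h, step_of_not ?_ c⟩
    intro m t h'
    obtain ⟨rfl, -, h2⟩ := rep_inj _ _ (by decide) (by decide) h'
    exact h t h2

lemma run_pw_pw (n : ℕ) {s : List L3} (hs : Valid s) : run (pw n ++ pw n) s = s := by
  rw [run_append]
  rcases run_pw_cases n s with ⟨t, rfl, h⟩ | ⟨h1, h⟩
  · rw [h]
    rcases run_pw_cases n t with ⟨t', rfl, h'⟩ | ⟨h1', h'⟩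
    · exact absurd rfl (hs [] n t')
    · exact h'
  · rw [h]
    rcases run_pw_cases n (c :: (List.replicate n b ++ a :: s)) with ⟨t', h2, h'⟩ | ⟨h1', h'⟩
    · rw [h']
      simp only [List.cons.injEq, true_and] at h2
      exact (rep_inj _ _ (by decide) (by decide) h2).2.2.symm
    · exact absurd rfl (h1' s)

/-- The congruence of the words which act in the same way on the valid states. -/
def actCon : Con (FreeMonoid L3) where
  r u v := ∀ s, Valid s → run (FreeMonoid.toList u) s = run (FreeMonoid.toList v) s
  iseqv := ⟨fun _ _ _ => rfl, fun h s hs => (h s hs).symm,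
    fun h1 h2 s hs => (h1 s hs).trans (h2 s hs)⟩
  mul' := by
    intro w x y z h1 h2 s hs
    rw [FreeMonoid.toList_mul, FreeMonoid.toList_mul, run_append, run_append, h1 s hs]
    exact h2 _ (valid_run _ hs)

lemma conGen_le : conGen Rel ≤ actCon := by
  rw [Con.conGen_le]
  rintro _ _ ⟨n⟩ s hs
  exact run_pw_pw n hs

/-- Words with the same value act in the same way. -/
lemma run_eq_of_val {u v : List L3} (h : val u = val v) {s : List L3} (hs : Valid s) :
    run u s = run v s := by
  rw [val_eq, val_eq] at h
  exact conGen_le ((Con.eq _).1 h) s hs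

/-- The normal form: the value is preserved. -/
lemma val_step (s : List L3) (x : L3) : val (step s x).reverse = val s.reverse * gen x := by
  rcases step_cases s x with ⟨h1, h2⟩ | ⟨n, t, rfl, rfl, h1⟩
  · rw [h1, List.reverse_cons, val_append]
    simp [val]
  · rw [h1]
    have h3 : (pat n t).reverse ++ [c] = t.reverse ++ (pw n ++ pw n) := by
      simp [pat, pw]
    have h4 : val (pat n t).reverse * gen c = val ((pat n t).reverse ++ [c]) := by
      rw [val_append]
      simp [val]
    rw [h4, h3, val_append, val_rel, mul_one]

lemma val_run (w s : List L3) : val (run w s).reverse = val s.reverse * val w := by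
  induction w generalizing s with
  | nil => simp [run_nil, val_nil]
  | cons x w ih => rw [run_cons, ih, val_step, val_cons, mul_assoc]

end Pool.Agent.U642.CFU
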