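import Mathlib
import Pool.Agent.U642.CFU1

set_option autoImplicit false

/-!
# The group of units of `⟨a, b, c | (a bⁿ c)² = 1 (n ≥ 0)⟩` is not finitely generated
-/

namespace Pool.Agent.U642.CFU

open L3

/-! ### The reversing symmetry -/

/-- Exchange `a` and `c`. -/
def sw : L3 → L3
  | a => c
  | b => b
  | c => a

lemma sw_sw (x : L3) : sw (sw x) = x := by cases x <;> rfl

/-- Reverse a word and exchange `a` and `c`. -/
def tw (w : List L3) : List L3 := (w.map sw).reverse

lemma tw_append (u v : List L3) : tw (u ++ v) = tw v ++ tw u := by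
  simp [tw]

lemma tw_pw (n : ℕ) : tw (pw n) = pw n := by
  simp [tw, pw, sw]

/-- The congruence induced by the symmetry. -/
def twCon : Con (FreeMonoid L3) where
  r u v := val (tw (FreeMonoid.toList u)) = val (tw (FreeMonoid.toList v))
  iseqv := ⟨fun _ => rfl, fun h => h.symm, fun h1 h2 => h1.trans h2⟩
  mul' := by
    intro w x y z h1 h2
    rw [FreeMonoid.toList_mul, FreeMonoid.toList_mul, tw_append, tw_append, val_append,
      val_append, h1, h2]

lemma conGen_le_tw : conGen Rel ≤ twCon := by
  rw [Con.conGen_le]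
  rintro _ _ ⟨n⟩
  change val (tw (pw n ++ pw n)) = val (tw [])
  rw [tw_append, tw_pw, val_rel]
  rfl

lemma val_tw {u v : List L3} (h : val u = val v) : val (tw u) = val (tw v) := by
  rw [val_eq, val_eq] at h
  exact conGen_le_tw ((Con.eq _).1 h)

/-! ### States which can be emptied -/

/-- Each letter `b` or `c` is preceded by `a` or `b`. -/
def good : List L3 → Prop
  | [] => True
  | x :: s => (x = a ∨ ∃ y t, s = y :: t ∧ y ≠ c) ∧ good s

lemma good_rep (n : ℕ) {y : L3} {t : List L3} (hy : y ≠ c) (h : good (y :: t)) :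
    good (List.replicate n b ++ y :: t) := by
  induction n with
  | zero => exact h
  | succ n ih =>
    rw [List.replicate_succ, List.cons_append]
    refine ⟨Or.inr ?_, ih⟩
    cases n with
    | zero => exact ⟨y, t, rfl, hy⟩
    | succ n => exact ⟨b, List.replicate n b ++ y :: t, rfl, by decide⟩

lemma good_pat (n : ℕ) {t : List L3} (h : good t) : good (pat n t) := by
  have h1 : good (a :: t) := ⟨Or.inl rfl, h⟩
  have h2 : good (List.replicate n b ++ a :: t) := good_rep n (by decide) h1
  have h3 : good (c :: (List.replicate n b ++ a :: t)) := by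
    refine ⟨Or.inr ?_, h2⟩
    cases n with
    | zero => exact ⟨a, t, rfl, by decide⟩
    | succ n => exact ⟨b, List.replicate n b ++ a :: t, rfl, by decide⟩
  exact good_rep n (by decide) (show good (a :: c :: (List.replicate n b ++ a :: t)) from
    ⟨Or.inl rfl, h3⟩)

lemma good_of_run (v s : List L3) (h : run v s = []) : good s := by
  induction v generalizing s with
  | nil => rw [run_nil] at h; subst h; trivial
  | cons x v ih =>
    rw [run_cons] at h
    have h1 := ih _ h
    rcases step_cases s x with ⟨h2, -⟩ | ⟨n, t, rfl, rfl, h2⟩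
    · rw [h2] at h1
      exact h1.2
    · rw [h2] at h1
      exact good_pat n h1

/-! ### Irreducible words -/

lemma run_irr (w s : List L3) (h : Valid (w.reverse ++ s)) : run w s = w.reverse ++ s := by
  induction w generalizing s with
  | nil => rfl
  | cons x w ih =>
    rw [List.reverse_cons, List.append_assoc, List.singleton_append] at h ⊢
    have h1 : step s x = x :: s := by
      rcases step_cases s x with ⟨h2, -⟩ | ⟨n, t, rfl, rfl, h2⟩
      · exact h2
      · exact absurd rfl (h w.reverse n t)
    rw [run_cons, h1, ih _ h]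

lemma valid_sw {s : List L3} (h : Valid s) : Valid (s.reverse.map sw) := by
  intro p n t h1
  have h2 : s = (t.map sw).reverse ++ c :: pat n ((p.map sw).reverse) := by
    have h3 := congrArg (fun l => (l.map sw).reverse) h1
    simp only [List.map_map, List.map_reverse, List.reverse_reverse] at h3
    have h4 : (sw ∘ sw) = id := funext sw_sw
    rw [h4, List.map_id] at h3
    rw [h3]
    simp [pat, sw]
  exact h _ _ _ h2

/-- Each letter `a` or `b` is followed by `b` or `c`. -/
def goodF : List L3 → Prop
  | [] => True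
  | x :: s => (x = c ∨ ∃ y t, s = y :: t ∧ y ≠ a) ∧ goodF s

lemma goodF_of_good (F : List L3) (h : good (F.map sw)) : goodF F := by
  induction F with
  | nil => trivial
  | cons x F ih =>
    rw [List.map_cons] at h
    refine ⟨?_, ih h.2⟩
    rcases h.1 with h1 | ⟨y, t, h1, h2⟩
    · left
      cases x
      · simp [sw] at h1
      · simp [sw] at h1
      · rfl
    · right
      cases F with
      | nil => simp at h1
      | cons z F =>
        refine ⟨z, F, rfl, ?_⟩
        rintro rfl
        simp only [List.map_cons, List.cons.injEq] at h1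
        exact h2 (h1.1 ▸ rfl)

/-- Forward version of `good`, with a given previous letter. -/
def goodP : Option L3 → List L3 → Prop
  | _, [] => True
  | p, x :: s => (x = a ∨ ∃ y, p = some y ∧ y ≠ c) ∧ goodP (some x) s

lemma goodP_of_good (F s : List L3) (h : good (F.reverse ++ s)) : goodP s.head? F ∧ good s := by
  induction F generalizing s with
  | nil => exact ⟨trivial, h⟩
  | cons x F ih =>
    rw [List.reverse_cons, List.append_assoc, List.singleton_append] at h
    obtain ⟨h1, h2⟩ := ih _ h
    refine ⟨⟨?_, h1⟩, h2.2⟩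
    rcases h2.1 with h3 | ⟨y, t, rfl, h3⟩
    · exact Or.inl h3
    · exact Or.inr ⟨y, rfl, h3⟩

lemma block (F : List L3) (y : L3) (h0 : ∃ z t, F = z :: t ∧ z ≠ a) (h1 : goodF F)
    (h2 : goodP (some y) F) :
    ∃ k F', F = List.replicate k b ++ c :: F' ∧ goodF F' ∧ goodP (some c) F' := by
  induction F generalizing y with
  | nil =>
    obtain ⟨z, t, h, -⟩ := h0
    exact absurd h (by simp)
  | cons z F ih =>
    obtain ⟨z', t', h3, h4⟩ := h0
    simp only [List.cons.injEq] at h3
    obtain ⟨rfl, rfl⟩ := h3
    cases z with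
    | a => exact absurd rfl h4
    | b =>
      rcases h1.1 with h5 | h5
      · exact absurd h5 (by decide)
      · obtain ⟨k, F', rfl, h6, h7⟩ := ih b h5 h1.2 h2.2
        exact ⟨k + 1, F', by rw [List.replicate_succ]; rfl, h6, h7⟩
    | c => exact ⟨0, F, rfl, h1.2, h2.2⟩

lemma blocks (m : ℕ) (F : List L3) (hm : F.length ≤ m) (p : Option L3)
    (hp : ∀ y, p = some y → y = c) (h1 : goodF F) (h2 : goodP p F) :
    ∃ l : List ℕ, F = (l.map pw).flatten := by
  induction m generalizing F p with
  | zero =>
    have : F = [] := List.length_eq_zero_iff.1 (by omega)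
    exact ⟨[], by simp [this]⟩
  | succ m ih =>
    cases F with
    | nil => exact ⟨[], rfl⟩
    | cons x F =>
      have hx : x = a := by
        rcases h2.1 with h3 | ⟨y, h3, h4⟩
        · exact h3
        · exact absurd (hp y h3) h4
      subst hx
      have h3 : ∃ z t, F = z :: t ∧ z ≠ a := by
        rcases h1.1 with h3 | h3
        · exact absurd h3 (by decide)
        · exact h3
      obtain ⟨k, F', rfl, h4, h5⟩ := block F a h3 h1.2 h2.2
      obtain ⟨l, rfl⟩ := ih F' (by simp at hm; omega) (some c) (by simp) h4 h5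
      exact ⟨k :: l, by simp [pw]⟩

/-! ### The units -/

/-- The unit `a bⁿ c`. -/
def pu (n : ℕ) : Moˣ where
  val := val (pw n)
  inv := val (pw n)
  val_inv := by rw [← val_append, val_rel]
  inv_val := by rw [← val_append, val_rel]

/-- Every unit is a product of the units `a bⁿ c`. -/
lemma unit_eq (u : Moˣ) : ∃ l : List ℕ, u = (l.map pu).prod := by
  obtain ⟨w, hw⟩ := val_surj (u : Mo)
  obtain ⟨w', hw'⟩ := val_surj ((u⁻¹ : Moˣ) : Mo)
  set s := run w [] with hs
  have hv : Valid s := valid_run w valid_nil
  have hsval : val s.reverse = (u : Mo) := by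
    rw [hs, val_run, List.reverse_nil, val_nil, one_mul, hw]
  -- right invertibility
  have h1 : good s := by
    apply good_of_run w' s
    have h2 : val (w ++ w') = val [] := by
      rw [val_append, hw, hw', val_nil, Units.mul_inv]
    have h3 := run_eq_of_val h2 valid_nil
    rw [run_append, ← hs] at h3
    exact h3
  -- left invertibility
  have h2 : good (s.reverse.map sw) := by
    have h3 : val (w' ++ s.reverse) = val [] := by
      rw [val_append, hsval, hw', val_nil, Units.inv_mul]
    have h4 := run_eq_of_val (val_tw h3) valid_nil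
    rw [tw_append, run_append] at h4
    have h5 : run (tw s.reverse) [] = s.reverse.map sw := by
      have h6 : (tw s.reverse).reverse ++ [] = s.reverse.map sw := by simp [tw]
      rw [run_irr _ _ (by rw [h6]; exact valid_sw hv), h6]
    rw [h5] at h4
    exact good_of_run _ _ h4
  have h3 := goodP_of_good s.reverse [] (by simpa using h1)
  obtain ⟨l, hl⟩ := blocks _ s.reverse le_rfl none (by simp) (goodF_of_good _ h2) h3.1
  refine ⟨l, Units.ext ?_⟩
  rw [← hsval, hl]
  clear hl
  induction l with
  | nil => rfl
  | cons n l ih =>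
    rw [List.map_cons, List.flatten_cons, val_append, ih, List.map_cons, List.prod_cons,
      Units.val_mul]
    rfl

/-- The states which are products of the blocks `a bⁿ c` with `n < N`. -/
inductive Bk (N : ℕ) : List L3 → Prop
  | nil : Bk N []
  | cons (n : ℕ) (t : List L3) (h : n < N) (ht : Bk N t) :
      Bk N (c :: (List.replicate n b ++ a :: t))

lemma Bk.inv {N n : ℕ} {t : List L3} (h : Bk N (c :: (List.replicate n b ++ a :: t))) :
    n < N ∧ Bk N t := by
  generalize hs : c :: (List.replicate n b ++ a :: t) = s at h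
  cases h with
  | nil => simp at hs
  | cons m t' h ht =>
    simp only [List.cons.injEq, true_and] at hs
    obtain ⟨rfl, -, rfl⟩ := rep_inj _ _ (by decide) (by decide) hs
    exact ⟨h, ht⟩

lemma Bk.run {N n : ℕ} (hn : n < N) {s : List L3} (h : Bk N s) : Bk N (run (pw n) s) := by
  rcases run_pw_cases n s with ⟨t, rfl, h1⟩ | ⟨-, h1⟩
  · rw [h1]; exact h.inv.2
  · rw [h1]; exact Bk.cons n s hn h

/-- The action of the subgroup generated by the units `a bⁿ c`, `n < N`, preserves `Bk N`. -/
lemma act_Bk (N : ℕ) (u : Moˣ) (hu : u ∈ Subgroup.closure (pu '' {n | n < N})) :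
    ∀ w, val w = (u : Mo) → ∀ s, Valid s → (Bk N s ↔ Bk N (run w s)) := by
  induction hu using Subgroup.closure_induction with
  | mem u hu =>
    obtain ⟨n, hn, rfl⟩ := hu
    intro w hw s hs
    have h1 : ∀ s, Valid s → run w s = run (pw n) s := fun s hs => run_eq_of_val hw hs
    rw [h1 s hs]
    refine ⟨fun h => h.run hn, fun h => ?_⟩
    have h2 := h.run hn
    rw [← run_append, run_pw_pw n hs] at h2
    exact h2
  | one =>
    intro w hw s hs
    rw [run_eq_of_val (v := []) hw hs, run_nil]
  | mul x y _ _ hx hy =>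
    intro w hw s hs
    obtain ⟨wx, hwx⟩ := val_surj (x : Mo)
    obtain ⟨wy, hwy⟩ := val_surj (y : Mo)
    have h1 : val w = val (wx ++ wy) := by rw [hw, val_append, hwx, hwy, Units.val_mul]
    rw [run_eq_of_val h1 hs, run_append, hx wx hwx s hs]
    exact hy wy hwy _ (valid_run _ hs)
  | inv x _ hx =>
    intro w hw s hs
    obtain ⟨wx, hwx⟩ := val_surj (x : Mo)
    have h1 : val (w ++ wx) = val [] := by rw [val_append, hw, hwx, val_nil, Units.inv_mul]
    have h2 := run_eq_of_val h1 hs
    rw [run_append, run_nil] at h2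
    have h3 := hx wx hwx _ (valid_run w hs)
    rw [h2] at h3
    exact h3.symm

lemma pu_not_mem (N : ℕ) : pu N ∉ Subgroup.closure (pu '' {n | n < N}) := by
  intro h
  have h1 := (act_Bk N _ h (pw N) rfl [] valid_nil).1 Bk.nil
  rcases run_pw_cases N [] with ⟨t, h2, -⟩ | ⟨-, h2⟩
  · simp at h2
  · rw [h2] at h1
    exact absurd h1.inv.1 (lt_irrefl N)

lemma prod_mem (l : List ℕ) : ∃ N, (l.map pu).prod ∈ Subgroup.closure (pu '' {n | n < N}) := by
  refine ⟨l.sum + 1, Subgroup.list_prod_mem _ ?_⟩
  intro x hx
  obtain ⟨n, hn, rfl⟩ := List.mem_map.1 hx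
  apply Subgroup.subset_closure
  refine ⟨n, ?_, rfl⟩
  have := List.le_sum_of_mem hn
  simp only [Set.mem_ofPred_eq]
  omega

/-- The group of units is not finitely generated. -/
theorem units_not_fg : ¬ Group.FG Moˣ := by
  intro h
  obtain ⟨S, hS, hfin⟩ := Group.fg_iff.1 h
  have h1 : ∀ u : Moˣ, ∃ N, u ∈ Subgroup.closure (pu '' {n | n < N}) := by
    intro u
    obtain ⟨l, rfl⟩ := unit_eq u
    exact prod_mem l
  choose f hf using h1
  obtain ⟨N, hN⟩ : ∃ N, ∀ u ∈ S, f u ≤ N := by
    obtain ⟨N, hN⟩ := (hfin.image f).bddAbove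
    exact ⟨N, fun u hu => hN ⟨u, hu, rfl⟩⟩
  have h2 : S ⊆ Subgroup.closure (pu '' {n | n < N}) := by
    intro u hu
    refine Subgroup.closure_mono (Set.image_mono ?_) (hf u)
    intro n hn
    exact lt_of_lt_of_le hn (hN u hu)
  have h3 : (⊤ : Subgroup Moˣ) ≤ Subgroup.closure (pu '' {n | n < N}) := by
    rw [← hS]
    exact (Subgroup.closure_le _).2 h2
  exact pu_not_mem N (h3 (Subgroup.mem_top _))

end Pool.Agent.U642.CFU
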