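import Mathlib
import Pool.Agent.Helper336.CF
import Pool.Agent.U642.CFU1

set_option autoImplicit false

/-!
# The word problem of `⟨a, b, c | (a bⁿ c)² = 1 (n ≥ 0)⟩` is context-free
-/

namespace Pool.Agent.U642.CFU

open L3 Pool.Agent.Helper336.CF

/-- The words with value `1` (`true`), and the words which fit between `a` and `c` (`false`). -/
inductive EK : Bool → List L3 → Prop
  | nil : EK true []
  | cons (k e : List L3) (hk : EK false k) (he : EK true e) : EK true (a :: (k ++ c :: e))
  | zero (e1 e2 e3 : List L3) (h1 : EK true e1) (h2 : EK true e2) (h3 : EK true e3) :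
      EK false (e1 ++ c :: (e2 ++ a :: e3))
  | succ (e1 k e2 : List L3) (h1 : EK true e1) (hk : EK false k) (h2 : EK true e2) :
      EK false (e1 ++ b :: (k ++ b :: e2))

lemma EK.append {e f : List L3} (he : EK true e) (hf : EK true f) : EK true (e ++ f) := by
  generalize hx : true = x at he
  induction he with
  | nil => exact hf
  | cons k e hk he ih1 ih2 =>
    have := EK.cons k (e ++ f) hk (ih2 rfl)
    simpa using this
  | zero => simp at hx
  | succ => simp at hx

/-- Expansions: insert words with value `1` everywhere. -/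
inductive Exp : List L3 → List L3 → Prop
  | nil (e : List L3) (he : EK true e) : Exp [] e
  | cons (x : L3) (w e u : List L3) (he : EK true e) (h : Exp w u) : Exp (x :: w) (e ++ x :: u)

lemma Exp.append {w1 w2 u1 u2 : List L3} (x : L3) (h1 : Exp w1 u1) (h2 : Exp w2 u2) :
    Exp (w1 ++ x :: w2) (u1 ++ x :: u2) := by
  induction h1 with
  | nil e he => exact Exp.cons x w2 e u2 he h2
  | cons y w e u he h ih =>
    have := Exp.cons y (w ++ x :: w2) e (u ++ x :: u2) he ih
    simpa using this

lemma Exp.split (w1 w2 : List L3) (x : L3) {u : List L3} (h : Exp (w1 ++ x :: w2) u) :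
    ∃ u1 u2, u = u1 ++ x :: u2 ∧ Exp w1 u1 ∧ Exp w2 u2 := by
  induction w1 generalizing u with
  | nil =>
    cases h with
    | cons _ _ e u he h => exact ⟨e, u, rfl, Exp.nil e he, h⟩
  | cons y w1 ih =>
    cases h with
    | cons _ _ e u he h =>
      obtain ⟨u1, u2, rfl, h1, h2⟩ := ih h
      exact ⟨e ++ y :: u1, u2, by simp, Exp.cons y w1 e u1 he h1, h2⟩

lemma Exp.append_right {w u e : List L3} (h : Exp w u) (he : EK true e) : Exp w (u ++ e) := by
  induction h with
  | nil e' he' => exact Exp.nil _ (he'.append he)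
  | cons y w e' u he' h ih =>
    have := Exp.cons y w e' (u ++ e) he' ih
    simpa using this

/-- The word `bⁿ c a bⁿ`. -/
def mid (n : ℕ) : List L3 := List.replicate n b ++ c :: a :: List.replicate n b

lemma mid_succ (n : ℕ) : mid (n + 1) = b :: (mid n ++ [b]) := by
  rw [mid, mid, List.replicate_succ', List.cons_append.symm]
  conv_lhs => rw [← List.replicate_succ', List.replicate_succ]
  simp [← List.replicate_succ']

lemma EK_of_Exp (n : ℕ) {k : List L3} (h : Exp (mid n) k) : EK false k := by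
  induction n generalizing k with
  | zero =>
    cases h with
    | cons _ _ e1 u he1 h =>
      cases h with
      | cons _ _ e2 u he2 h =>
        cases h with
        | nil _ he3 => exact EK.zero e1 e2 _ he1 he2 he3
  | succ n ih =>
    rw [mid_succ] at h
    cases h with
    | cons _ _ e1 u he1 h =>
      obtain ⟨u1, u2, rfl, h1, h2⟩ := Exp.split _ _ _ h
      cases h2 with
      | nil _ he2 => exact EK.succ e1 u1 _ he1 (ih h1) he2

lemma pat_reverse (n : ℕ) (t : List L3) : (pat n t).reverse = t.reverse ++ a :: mid n := by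
  simp [pat, mid]

lemma Exp.step {s u : List L3} (h : Exp s.reverse u) (x : L3) :
    Exp (step s x).reverse (u ++ [x]) := by
  rcases step_cases s x with ⟨h1, -⟩ | ⟨n, t, rfl, rfl, h1⟩
  · rw [h1, List.reverse_cons]
    exact h.append x (Exp.nil [] EK.nil)
  · rw [h1]
    rw [pat_reverse] at h
    obtain ⟨u1, u2, rfl, h2, h3⟩ := Exp.split _ _ _ h
    have h4 : EK true (a :: (u2 ++ c :: [])) := EK.cons u2 [] (EK_of_Exp n h3) EK.nil
    have := h2.append_right h4
    simpa using this

lemma Exp.run (w : List L3) {s u : List L3} (h : Exp s.reverse u) :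
    Exp (run w s).reverse (u ++ w) := by
  induction w generalizing s u with
  | nil => rw [run_nil, List.append_nil]; exact h
  | cons x w ih =>
    have := ih (h.step x)
    rw [run_cons]
    simpa using this

lemma exp_nf (w : List L3) : Exp (run w []).reverse w := by
  have : Exp (([] : List L3).reverse) [] := Exp.nil [] EK.nil
  simpa using this.run w

/-! ### The grammar -/

/-- The nonterminals: `U` generates the word problem, `E` the words with value `1`, `K` the words
which fit between `a` and `c`, and `E'`, `K'` the reversed words. -/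
inductive NT : Type
  | U | E | K | E' | K'

/-- The letter `x` as a symbol. -/
abbrev tm (x : L3) : Symbol (Option L3) NT := Symbol.terminal (some x)

/-- A nonterminal as a symbol. -/
abbrev nt (X : NT) : Symbol (Option L3) NT := Symbol.nonterminal X

open Classical in
/-- The rules. -/
noncomputable def rls : Finset (ContextFreeRule (Option L3) NT) :=
  {⟨NT.U, [nt .E, Symbol.terminal none, nt .E']⟩,
   ⟨NT.U, [nt .E, tm a, nt .U, tm a, nt .E']⟩,
   ⟨NT.U, [nt .E, tm b, nt .U, tm b, nt .E']⟩,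
   ⟨NT.U, [nt .E, tm c, nt .U, tm c, nt .E']⟩,
   ⟨NT.E, []⟩,
   ⟨NT.E, [tm a, nt .K, tm c, nt .E]⟩,
   ⟨NT.K, [nt .E, tm c, nt .E, tm a, nt .E]⟩,
   ⟨NT.K, [nt .E, tm b, nt .K, tm b, nt .E]⟩,
   ⟨NT.E', []⟩,
   ⟨NT.E', [nt .E', tm c, nt .K', tm a]⟩,
   ⟨NT.K', [nt .E', tm a, nt .E', tm c, nt .E']⟩,
   ⟨NT.K', [nt .E', tm b, nt .K', tm b, nt .E']⟩}

/-- The grammar. -/
noncomputable def gr : ContextFreeGrammar (Option L3) := ⟨NT, NT.U, rls⟩

/-- The word problem of the monoid `Mo` with respect to the generators `gen`. -/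
def WPlang : Language (Option L3) :=
  {w | ∃ u v : List L3, val u = val v ∧ w = u.map some ++ [none] ++ v.reverse.map some}

/-- The words generated by the nonterminals. -/
def SS : NT → Set (List (Option L3))
  | NT.U => {w | ∃ u v : List L3, val u = val v ∧ w = u.map some ++ [none] ++ v.reverse.map some}
  | NT.E => {w | ∃ u : List L3, val u = 1 ∧ w = u.map some}
  | NT.K => {w | ∃ (u : List L3) (n : ℕ), val u = val (mid n) ∧ w = u.map some}
  | NT.E' => {w | ∃ u : List L3, val u = 1 ∧ w = u.reverse.map some}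
  | NT.K' => {w | ∃ (u : List L3) (n : ℕ), val u = val (mid n) ∧ w = u.reverse.map some}

lemma val_amid (n : ℕ) : gen a * (val (mid n) * gen c) = 1 := by
  have h1 : a :: (mid n ++ [c]) = pw n ++ pw n := by simp [mid, pw]
  have h2 := val_rel n
  rw [← h1, val_cons, val_append] at h2
  simpa [val] using h2

lemma val_mid_succ (n : ℕ) : val (mid (n + 1)) = gen b * (val (mid n) * gen b) := by
  rw [mid_succ, val_cons, val_append]
  simp [val]

lemma val_mid_zero : val (mid 0) = gen c * gen a := by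
  simp [mid, val]

lemma sound (r : ContextFreeRule (Option L3) NT) (hr : r ∈ rls) (w : List (Option L3))
    (hw : Comp SS r.output w) : w ∈ SS r.input := by
  simp only [rls, Finset.mem_insert, Finset.mem_singleton] at hr
  rcases hr with rfl | rfl | rfl | rfl | rfl | rfl | rfl | rfl | rfl | rfl | rfl | rfl
  · obtain ⟨w₁, w₂, rfl, ⟨e, he, rfl⟩, w₃, rfl, w₄, w₅, rfl, ⟨f, hf, rfl⟩, rfl⟩ := hw
    exact ⟨e, f, by rw [he, hf], by simp⟩
  · obtain ⟨w₁, w₂, rfl, ⟨e, he, rfl⟩, w₃, rfl, w₄, w₅, rfl, ⟨u, v, huv, rfl⟩, w₆, rfl, w₇, w₈, rfl,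
      ⟨f, hf, rfl⟩, rfl⟩ := hw
    refine ⟨e ++ a :: u, f ++ a :: v, ?_, by simp⟩
    rw [val_append, val_append, val_cons, val_cons, he, hf, huv]
  · obtain ⟨w₁, w₂, rfl, ⟨e, he, rfl⟩, w₃, rfl, w₄, w₅, rfl, ⟨u, v, huv, rfl⟩, w₆, rfl, w₇, w₈, rfl,
      ⟨f, hf, rfl⟩, rfl⟩ := hw
    refine ⟨e ++ b :: u, f ++ b :: v, ?_, by simp⟩
    rw [val_append, val_append, val_cons, val_cons, he, hf, huv]
  · obtain ⟨w₁, w₂, rfl, ⟨e, he, rfl⟩, w₃, rfl, w₄, w₅, rfl, ⟨u, v, huv, rfl⟩, w₆, rfl, w₇, w₈, rfl,
      ⟨f, hf, rfl⟩, rfl⟩ := hw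
    refine ⟨e ++ c :: u, f ++ c :: v, ?_, by simp⟩
    rw [val_append, val_append, val_cons, val_cons, he, hf, huv]
  · rw [Comp] at hw
    subst hw
    exact ⟨[], rfl, rfl⟩
  · obtain ⟨w₁, rfl, w₂, w₃, rfl, ⟨k, n, hk, rfl⟩, w₄, rfl, w₅, w₆, rfl, ⟨e, he, rfl⟩, rfl⟩ := hw
    refine ⟨a :: (k ++ c :: e), ?_, by simp⟩
    rw [val_cons, val_append, val_cons, he, hk, mul_one, val_amid]
  · obtain ⟨w₁, w₂, rfl, ⟨e, he, rfl⟩, w₃, rfl, w₄, w₅, rfl, ⟨f, hf, rfl⟩, w₆, rfl, w₇, w₈, rfl,
      ⟨h, hh, rfl⟩, rfl⟩ := hw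
    refine ⟨e ++ c :: (f ++ a :: h), 0, ?_, by simp⟩
    rw [val_append, val_cons, val_append, val_cons, he, hf, hh, val_mid_zero]
    simp
  · obtain ⟨w₁, w₂, rfl, ⟨e, he, rfl⟩, w₃, rfl, w₄, w₅, rfl, ⟨k, n, hk, rfl⟩, w₆, rfl, w₇, w₈, rfl,
      ⟨h, hh, rfl⟩, rfl⟩ := hw
    refine ⟨e ++ b :: (k ++ b :: h), n + 1, ?_, by simp⟩
    rw [val_append, val_cons, val_append, val_cons, he, hk, hh, val_mid_succ]
    simp
  · rw [Comp] at hw
    subst hw
    exact ⟨[], rfl, rfl⟩
  · obtain ⟨w₁, w₂, rfl, ⟨e, he, rfl⟩, w₃, rfl, w₄, w₅, rfl, ⟨k, n, hk, rfl⟩, w₆, rfl, rfl⟩ := hw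
    refine ⟨a :: (k ++ c :: e), ?_, by simp⟩
    rw [val_cons, val_append, val_cons, he, hk, mul_one, val_amid]
  · obtain ⟨w₁, w₂, rfl, ⟨e, he, rfl⟩, w₃, rfl, w₄, w₅, rfl, ⟨f, hf, rfl⟩, w₆, rfl, w₇, w₈, rfl,
      ⟨h, hh, rfl⟩, rfl⟩ := hw
    refine ⟨h ++ c :: (f ++ a :: e), 0, ?_, by simp⟩
    rw [val_append, val_cons, val_append, val_cons, he, hf, hh, val_mid_zero]
    simp
  · obtain ⟨w₁, w₂, rfl, ⟨e, he, rfl⟩, w₃, rfl, w₄, w₅, rfl, ⟨k, n, hk, rfl⟩, w₆, rfl, w₇, w₈, rfl,
      ⟨h, hh, rfl⟩, rfl⟩ := hw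
    refine ⟨h ++ b :: (k ++ b :: e), n + 1, ?_, by simp⟩
    rw [val_append, val_cons, val_append, val_cons, he, hk, hh, val_mid_succ]
    simp

/-- The nonterminal which generates the words of the given kind. -/
def ntOf : Bool → NT
  | true => NT.E
  | false => NT.K

/-- The nonterminal which generates the reversed words of the given kind. -/
def ntOf' : Bool → NT
  | true => NT.E'
  | false => NT.K'

lemma gen_rule {X : NT} {α : List (Symbol (Option L3) NT)} (h : (⟨X, α⟩ : ContextFreeRule _ _) ∈ rls)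
    {w : List (Option L3)} (hw : Comp (Gen gr) α w) : w ∈ Gen gr X :=
  gen_of_rule gr ⟨X, α⟩ h w hw

lemma complete_EK {x : Bool} {w : List L3} (h : EK x w) :
    w.map some ∈ Gen gr (ntOf x) ∧ w.reverse.map some ∈ Gen gr (ntOf' x) := by
  induction h with
  | nil =>
    refine ⟨gen_rule (X := NT.E) (α := []) (by simp [rls]) rfl, 
      gen_rule (X := NT.E') (α := []) (by simp [rls]) rfl⟩
  | cons k e hk he ihk ihe =>
    constructor
    · refine gen_rule (X := NT.E) (α := [tm a, nt .K, tm c, nt .E]) (by simp [rls]) ?_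
      exact ⟨_, by rw [List.map_cons], k.map some, _, by rw [List.map_append], ihk.1, _,
        by rw [List.map_cons], e.map some, [], by simp, ihe.1, rfl⟩
    · refine gen_rule (X := NT.E') (α := [nt .E', tm c, nt .K', tm a]) (by simp [rls]) ?_
      exact ⟨e.reverse.map some, some c :: (k.reverse.map some ++ [some a]), by simp, ihe.2, _, rfl,
        k.reverse.map some, [some a], rfl, ihk.2, [], rfl, rfl⟩
  | zero e1 e2 e3 h1 h2 h3 ih1 ih2 ih3 =>
    constructor
    · refine gen_rule (X := NT.K) (α := [nt .E, tm c, nt .E, tm a, nt .E]) (by simp [rls]) ?_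
      exact ⟨e1.map some, some c :: (e2.map some ++ some a :: e3.map some), by simp, ih1.1, _, rfl,
        e2.map some, some a :: e3.map some, rfl, ih2.1, _, rfl, e3.map some, [], by simp, ih3.1, rfl⟩
    · refine gen_rule (X := NT.K') (α := [nt .E', tm a, nt .E', tm c, nt .E']) (by simp [rls]) ?_
      exact ⟨e3.reverse.map some, some a :: (e2.reverse.map some ++ some c :: e1.reverse.map some),
        by simp, ih3.2, _, rfl, e2.reverse.map some, some c :: e1.reverse.map some, rfl, ih2.2, _,
        rfl, e1.reverse.map some, [], by simp, ih1.2, rfl⟩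
  | succ e1 k e2 h1 hk h2 ih1 ihk ih2 =>
    constructor
    · refine gen_rule (X := NT.K) (α := [nt .E, tm b, nt .K, tm b, nt .E]) (by simp [rls]) ?_
      exact ⟨e1.map some, some b :: (k.map some ++ some b :: e2.map some), by simp, ih1.1, _, rfl,
        k.map some, some b :: e2.map some, rfl, ihk.1, _, rfl, e2.map some, [], by simp, ih2.1, rfl⟩
    · refine gen_rule (X := NT.K') (α := [nt .E', tm b, nt .K', tm b, nt .E']) (by simp [rls]) ?_
      exact ⟨e2.reverse.map some, some b :: (k.reverse.map some ++ some b :: e1.reverse.map some),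
        by simp, ih2.2, _, rfl, k.reverse.map some, some b :: e1.reverse.map some, rfl, ihk.2, _,
        rfl, e1.reverse.map some, [], by simp, ih1.2, rfl⟩

lemma complete_U (w u v : List L3) (hu : Exp w u) (hv : Exp w v) :
    u.map some ++ [none] ++ v.reverse.map some ∈ Gen gr NT.U := by
  induction w generalizing u v with
  | nil =>
    cases hu with
    | nil _ hu =>
      cases hv with
      | nil _ hv =>
        refine gen_rule (X := NT.U) (α := [nt .E, Symbol.terminal none, nt .E'])
          (by simp [rls]) ?_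
        exact ⟨u.map some, none :: v.reverse.map some, by simp, (complete_EK hu).1, _, rfl,
          v.reverse.map some, [], by simp, (complete_EK hv).2, rfl⟩
  | cons x w ih =>
    cases hu with
    | cons _ _ e u he hu =>
      cases hv with
      | cons _ _ f v hf hv =>
        refine gen_rule (X := NT.U) (α := [nt .E, tm x, nt .U, tm x, nt .E'])
          (by cases x <;> simp [rls]) ?_
        exact ⟨e.map some, some x :: ((u.map some ++ [none] ++ v.reverse.map some) ++
          some x :: f.reverse.map some), by simp, (complete_EK he).1, _, rfl,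
          u.map some ++ [none] ++ v.reverse.map some, some x :: f.reverse.map some, rfl,
          ih u v hu hv, _, rfl, f.reverse.map some, [], by simp, (complete_EK hf).2, rfl⟩

/-- The word problem of `⟨a, b, c | (a bⁿ c)² = 1 (n ≥ 0)⟩` is context-free. -/
theorem wp_cf : WPlang.IsContextFree := by
  refine ⟨gr, ?_⟩
  ext w
  have h := language_eq gr SS (fun r hr w hw => sound r hr w hw) (fun w hw => ?_) w
  · exact h
  · obtain ⟨u, v, huv, rfl⟩ := hw
    have h1 : run u [] = run v [] := run_eq_of_val huv valid_nil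
    have h2 := exp_nf v
    rw [← h1] at h2
    exact complete_U _ u v (exp_nf u) h2

end Pool.Agent.U642.CFU
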